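import Pool.Agent.P.MP_daaf23_co.FgH

set_option autoImplicit false

namespace Pool.Agent.Results.MP_daaf23_co.FGLength
open Pool.Agent.P.MP_daaf23_co.H84

/-- For every `P` there is `B` such that every infinite word, over any alphabet, all of whose
prefixes are, in the free group, products of at most `P` palindromes over the letters and their
inverses, is of the form `u v v v ...` with `v` nonempty, where `u` and `v` are given by
expressions with at most `B` nodes built from letters by concatenation and powers. -/
theorem result :
    ∀ P : ℕ, ∃ B : ℕ, ∀ (A : Type) (w : ℕ → A),
      (∀ n : ℕ, ∃ L : List (List (A × Bool)), L.length ≤ P ∧ (∀ x ∈ L, List.Palindrome x) ∧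
        (L.map FreeGroup.mk).prod = (((List.range n).map w).map FreeGroup.of).prod) →
      ∃ E F : Expr A, E.size ≤ B ∧ F.size ≤ B ∧ F.val ≠ [] ∧
        ∀ k : ℕ, E.val ++ (List.replicate k F.val).flatten =
          (List.range (E.val.length + k * F.val.length)).map w :=
  main_thm

end Pool.Agent.Results.MP_daaf23_co.FGLength
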