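import Pool.Agent.P.MP_daaf23_co.FoldF

set_option autoImplicit false

namespace Pool.Agent.Results.MP_daaf23_co.LogGrowth

/-- If the first `N` letters of `w` contain no `k`-th power of a nonempty word, then for at most
`2 N^(2/3)` of the lengths `n ≤ N` the word formed by the first `n` letters of `w` is, even in the
free group on the alphabet, a product of at most `log N / (2520 log k)` palindromes
(palindromic words in the letters and their inverses). -/
theorem result :
    ∀ (A : Type) (w : ℕ → A) (k N : ℕ), 2 ≤ k → 1 ≤ N →
      (∀ x : List A, x ≠ [] → ¬ (List.replicate k x).flatten <:+: (List.range N).map w) →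
      (Set.ncard {n : ℕ | n ≤ N ∧ ∃ L : List (List (A × Bool)), (∀ x ∈ L, List.Palindrome x) ∧
          (L.map FreeGroup.mk).prod = ((List.range n).map fun i => FreeGroup.of (w i)).prod ∧
          (L.length : ℝ) ≤ Real.log N / (2520 * Real.log k)} : ℝ) ≤ 2 * (N : ℝ) ^ (2 / 3 : ℝ) :=
  fun _ w _ _ hk hN h => Pool.Agent.P.MP_daaf23_co.H98.final_boundG w hk hN h

end Pool.Agent.Results.MP_daaf23_co.LogGrowth
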