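import Pool.Agent.P.MP_daaf23_co.TwF

set_option autoImplicit false

namespace Pool.Agent.Results.MP_daaf23_co.Structure

/-- If each of the words formed by the first `n ≤ N` letters of `w` is a concatenation of at most
`P` palindromes, then all but `(56 (k + P + 1)) ^ (27 P)` of the positions `x ≤ N` are the centre
of a `2k`-th power inside the first `N` letters (a factor on `[x - k d, x + k d)` with
period `d`). -/
theorem result : ∀ (A : Type) (w : ℕ → A) (k N P : ℕ),
    (∀ n ≤ N, ∃ L : List (List A), L.length ≤ P ∧ (∀ x ∈ L, List.Palindrome x) ∧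
      L.flatten = (List.range n).map w) →
    Set.ncard {x : ℕ | x ≤ N ∧ ¬ ∃ d, 0 < d ∧ k * d ≤ x ∧ x + k * d ≤ N ∧
      ∀ i, x ≤ i + k * d → i + d < x + k * d → w i = w (i + d)} ≤
      (56 * (k + P + 1)) ^ (27 * P) :=
  fun _ w k N P h => Pool.Agent.P.MP_daaf23_co.Tow.final w N P k h

end Pool.Agent.Results.MP_daaf23_co.Structure
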